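import Pool.Agent.Y224.AZ.Stm2
import Pool.Agent.W522.U.C2

/-!
Project AZ: invariant bilinear forms are Tate forms (helper93).
-/

set_option autoImplicit false
set_option linter.unusedSectionVars false

namespace Pool.Agent.Y93.AZ

open Module Pool.Agent.H204R3.SP Pool.Agent.H204R3.GP Pool.Agent.W522.U

section lin

variable {K : Type*} [Field K] {V V' : Type*} [AddCommGroup V] [Module K V]
  [FiniteDimensional K V] [AddCommGroup V'] [Module K V'] [FiniteDimensional K V']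

lemma inj_of_left {b : V →ₗ[K] V' →ₗ[K] K} (hl : ∀ u, (∀ v, b u v = 0) → u = 0) :
    Function.Injective b := by
  rw [← LinearMap.ker_eq_bot, LinearMap.ker_eq_bot']
  intro u hu
  exact hl u fun v => by rw [hu]; rfl

lemma fr_le (b : V →ₗ[K] V' →ₗ[K] K) (hl : ∀ u, (∀ v, b u v = 0) → u = 0) :
    finrank K V ≤ finrank K V' := by
  have h1 : Function.Injective b := inj_of_left hl
  have h2 := LinearMap.finrank_le_finrank_of_injective h1
  have h3 : finrank K (V' →ₗ[K] K) = finrank K V' := Subspace.dual_finrank_eq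
  rwa [h3] at h2

lemma fr_eq (b : V →ₗ[K] V' →ₗ[K] K) (hl : ∀ u, (∀ v, b u v = 0) → u = 0)
    (hr : ∀ v, (∀ u, b u v = 0) → v = 0) : finrank K V = finrank K V' :=
  le_antisymm (fr_le b hl) (fr_le b.flip fun v hv => hr v fun u => hv u)

/-- the isomorphism given by a perfect pairing -/
lemma exists_equiv (b : V →ₗ[K] V' →ₗ[K] K) (hl : ∀ u, (∀ v, b u v = 0) → u = 0)
    (hr : ∀ v, (∀ u, b u v = 0) → v = 0) :
    ∃ φ : V ≃ₗ[K] Module.Dual K V', ∀ u v, φ u v = b u v := by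
  have h3 : finrank K V = finrank K (Module.Dual K V') := by
    rw [Subspace.dual_finrank_eq]
    exact fr_eq b hl hr
  have h1 : Function.Injective b := inj_of_left hl
  exact ⟨LinearEquiv.ofInjectiveOfFinrankEq b h1 h3, fun u v => rfl⟩

lemma schur [IsAlgClosed K] [Nontrivial V] (b b' : V →ₗ[K] V' →ₗ[K] K)
    (hl : ∀ u, (∀ v, b u v = 0) → u = 0) (hr : ∀ v, (∀ u, b u v = 0) → v = 0) :
    ∃ (c : K) (u : V), u ≠ 0 ∧ ∀ v, b' u v = c * b u v := by
  obtain ⟨φ, hφ⟩ := exists_equiv b hl hr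
  let T : End K V := φ.symm.toLinearMap.comp b'
  obtain ⟨c, hc⟩ := Module.End.exists_eigenvalue T
  obtain ⟨u, hu⟩ := hc.exists_hasEigenvector
  refine ⟨c, u, hu.2, fun v => ?_⟩
  have h1 : T u = c • u := hu.apply_eq_smul
  have h2 : φ (T u) = b' u := LinearEquiv.apply_symm_apply φ (b' u)
  rw [← h2, h1, map_smul, ← hφ]
  rfl

lemma det_pair (b : V →ₗ[K] V' →ₗ[K] K) (hl : ∀ u, (∀ v, b u v = 0) → u = 0)
    (hr : ∀ v, (∀ u, b u v = 0) → v = 0) (f : End K V) (f' : End K V') (c : K)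
    (h : ∀ u v, b (f u) (f' v) = c * b u v) :
    LinearMap.det f * LinearMap.det f' = c ^ finrank K V := by
  obtain ⟨φ, hφ⟩ := exists_equiv b hl hr
  have h1 : (φ.symm.toLinearMap.comp (f'.dualMap.comp φ.toLinearMap)).comp f =
      c • (LinearMap.id : V →ₗ[K] V) := by
    refine LinearMap.ext fun u => ?_
    apply φ.injective
    refine LinearMap.ext fun v => ?_
    have h2 : φ ((φ.symm.toLinearMap.comp (f'.dualMap.comp φ.toLinearMap)).comp f u) =
        f'.dualMap (φ (f u)) := LinearEquiv.apply_symm_apply φ _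
    rw [h2, LinearMap.smul_apply, LinearMap.id_apply, map_smul]
    show φ (f u) (f' v) = c * φ u v
    rw [hφ, hφ, h]
  have h3 := congrArg LinearMap.det h1
  rw [LinearMap.det_smul, LinearMap.det_id, mul_one] at h3
  rw [← h3]
  have h4 : LinearMap.det (φ.symm.toLinearMap.comp (f'.dualMap.comp φ.toLinearMap)) =
      LinearMap.det f' := by
    rw [← LinearMap.det_dualMap f', ← LinearMap.det_conj f'.dualMap φ.symm]
    rfl
  have h5 : LinearMap.det ((φ.symm.toLinearMap.comp (f'.dualMap.comp φ.toLinearMap)).comp f) =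
      LinearMap.det (φ.symm.toLinearMap.comp (f'.dualMap.comp φ.toLinearMap)) * LinearMap.det f :=
    LinearMap.det_comp _ _
  rw [h5, h4, mul_comm]

end lin

lemma fin_ker {D : Type*} [Group D] {K : Type*} [Field K] (f : D →* K) (k : ℕ) (hk : 0 < k)
    (h : ∀ g, f g ^ k = 1) : ∃ H : Subgroup D, H.FiniteIndex ∧ ∀ g ∈ H, f g = 1 := by
  have : NeZero k := ⟨hk.ne'⟩
  have hle : f.toHomUnits.range ≤ rootsOfUnity k K := by
    rintro _ ⟨g, rfl⟩
    rw [mem_rootsOfUnity]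
    ext
    rw [Units.val_pow_eq_pow_val, Units.val_one]
    exact h g
  have : Finite f.toHomUnits.range := Finite.of_injective _ (Subgroup.inclusion_injective hle)
  refine ⟨f.toHomUnits.ker, inferInstance, fun g hg => ?_⟩
  have h1 : f.toHomUnits g = 1 := hg
  have h2 := congrArg Units.val h1
  exact h2

section rad

variable {K X : Type} [Field K] [AddCommGroup X] [Module K X]

/-- the left radical of a pairing of two subspaces -/
def radL (γ : X →ₗ[K] X →ₗ[K] K) (U U' : Submodule K X) : Submodule K X where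
  carrier := {u | u ∈ U ∧ ∀ v ∈ U', γ u v = 0}
  zero_mem' := ⟨U.zero_mem, fun v _ => by rw [map_zero, LinearMap.zero_apply]⟩
  add_mem' := fun {x y} hx hy => ⟨U.add_mem hx.1 hy.1, fun v hv => by
    rw [map_add, LinearMap.add_apply, hx.2 v hv, hy.2 v hv, add_zero]⟩
  smul_mem' := fun c x hx => ⟨U.smul_mem c hx.1, fun v hv => by
    rw [map_smul, LinearMap.smul_apply, hx.2 v hv, smul_zero]⟩

lemma radL_irr {N : Set (End K X)} {U U' : Submodule K X}
    (hirr : ∀ W ≤ U, (∀ a ∈ N, ∀ u ∈ W, a u ∈ W) → W = ⊥ ∨ W = U)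
    (hU : ∀ a ∈ N, ∀ u ∈ U, a u ∈ U) (hU' : ∀ a ∈ N, ∀ u ∈ U', a u ∈ U')
    (γ : X →ₗ[K] X →ₗ[K] K) (hγ : ∀ a ∈ N, ∀ u ∈ U, ∀ v ∈ U', γ (a u) v + γ u (a v) = 0) :
    radL γ U U' = ⊥ ∨ radL γ U U' = U := by
  refine hirr _ (fun u hu => hu.1) fun a ha u hu => ⟨hU a ha u hu.1, fun v hv => ?_⟩
  have h1 := hγ a ha u hu.1 v hv
  rw [hu.2 _ (hU' a ha v hv), add_zero] at h1
  exact h1

lemma left_nd {N : Set (End K X)} {U U' : Submodule K X}
    (hirr : ∀ W ≤ U, (∀ a ∈ N, ∀ u ∈ W, a u ∈ W) → W = ⊥ ∨ W = U)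
    (hU : ∀ a ∈ N, ∀ u ∈ U, a u ∈ U) (hU' : ∀ a ∈ N, ∀ u ∈ U', a u ∈ U')
    (γ : X →ₗ[K] X →ₗ[K] K) (hγ : ∀ a ∈ N, ∀ u ∈ U, ∀ v ∈ U', γ (a u) v + γ u (a v) = 0)
    (h0 : ∃ u ∈ U, ∃ v ∈ U', γ u v ≠ 0) : ∀ u ∈ U, (∀ v ∈ U', γ u v = 0) → u = 0 := by
  intro u hu huv
  rcases radL_irr hirr hU hU' γ hγ with h | h
  · have h1 : u ∈ radL γ U U' := ⟨hu, huv⟩
    rw [h] at h1
    exact (Submodule.mem_bot K).1 h1
  · obtain ⟨u1, hu1, v1, hv1, hne⟩ := h0
    rw [← h] at hu1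
    exact absurd (hu1.2 v1 hv1) hne

end rad

section main

variable {K X Γ : Type} [Field K] [CharZero K] [IsAlgClosed K] [AddCommGroup X] [Module K X]
  [FiniteDimensional K X] [Group Γ]

/-- the data of a pair of irreducible subspaces with forms -/
lemma pair (R : Representation K Γ X) (χ : Γ →* K) (N : Set (End K X))
    (hconj : ∀ g, ∀ a ∈ N, R g * a * R g⁻¹ ∈ N) (D : Subgroup Γ) (U U' : Submodule K X)
    (hU0 : U ≠ ⊥)
    (hDU : ∀ g ∈ D, ∀ u ∈ U, R g u ∈ U) (hDU' : ∀ g ∈ D, ∀ u ∈ U', R g u ∈ U')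
    (hirr : ∀ W ≤ U, (∀ a ∈ N, ∀ u ∈ W, a u ∈ W) → W = ⊥ ∨ W = U)
    (hirr' : ∀ W ≤ U', (∀ a ∈ N, ∀ u ∈ W, a u ∈ W) → W = ⊥ ∨ W = U')
    (hNU : ∀ a ∈ N, ∀ u ∈ U, a u ∈ U) (hNU' : ∀ a ∈ N, ∀ u ∈ U', a u ∈ U')
    (B B' β : X →ₗ[K] X →ₗ[K] K)
    (hB0 : ∃ u ∈ U, ∃ v ∈ U, B u v ≠ 0) (hB'0 : ∃ u ∈ U', ∃ v ∈ U', B' u v ≠ 0)
    (hβ0 : ∃ u ∈ U, ∃ v ∈ U', β u v ≠ 0)
    (hB : ∀ g ∈ D, ∀ u ∈ U, ∀ v ∈ U, B (R g u) (R g v) = χ g * B u v)
    (hB' : ∀ g ∈ D, ∀ u ∈ U', ∀ v ∈ U', B' (R g u) (R g v) = χ g * B' u v)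
    (hBN : ∀ a ∈ N, ∀ u ∈ U, ∀ v ∈ U, B (a u) v + B u (a v) = 0)
    (hB'N : ∀ a ∈ N, ∀ u ∈ U', ∀ v ∈ U', B' (a u) v + B' u (a v) = 0)
    (hβN : ∀ a ∈ N, ∀ u v, β (a u) v + β u (a v) = 0) :
    ∃ H : Subgroup D, H.FiniteIndex ∧ ∀ g ∈ H, ∀ u ∈ U, ∀ v ∈ U',
      β (R (g : Γ) u) (R (g : Γ) v) = χ g * β u v := by
  classical
  -- nondegeneracy
  have nB1 := left_nd hirr hNU hNU B hBN hB0
  have nB2 := left_nd hirr hNU hNU B.flip (fun a ha u hu v hv => by
    rw [LinearMap.flip_apply, LinearMap.flip_apply, add_comm]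
    exact hBN a ha v hv u hu) (by
    obtain ⟨u, hu, v, hv, h⟩ := hB0
    exact ⟨v, hv, u, hu, h⟩)
  have nB'1 := left_nd hirr' hNU' hNU' B' hB'N hB'0
  have nB'2 := left_nd hirr' hNU' hNU' B'.flip (fun a ha u hu v hv => by
    rw [LinearMap.flip_apply, LinearMap.flip_apply, add_comm]
    exact hB'N a ha v hv u hu) (by
    obtain ⟨u, hu, v, hv, h⟩ := hB'0
    exact ⟨v, hv, u, hu, h⟩)
  have nβ1 := left_nd hirr hNU hNU' β (fun a ha u _ v _ => hβN a ha u v) hβ0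
  have nβ2 := left_nd hirr' hNU' hNU β.flip (fun a ha u _ v _ => by
    rw [LinearMap.flip_apply, LinearMap.flip_apply, add_comm]
    exact hβN a ha v u) (by
    obtain ⟨u, hu, v, hv, h⟩ := hβ0
    exact ⟨v, hv, u, hu, h⟩)
  -- restricted forms
  let b : U →ₗ[K] U' →ₗ[K] K := β.domRestrict₁₂ U U'
  let bB : U →ₗ[K] U →ₗ[K] K := B.domRestrict₁₂ U U
  let bB' : U' →ₗ[K] U' →ₗ[K] K := B'.domRestrict₁₂ U' U'
  have hb1 : ∀ u, (∀ v, b u v = 0) → u = 0 := fun u h =>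
    Subtype.ext (nβ1 u u.2 fun v hv => h ⟨v, hv⟩)
  have hb2 : ∀ v, (∀ u, b u v = 0) → v = 0 := fun v h =>
    Subtype.ext (nβ2 v v.2 fun u hu => h ⟨u, hu⟩)
  have hbB1 : ∀ u, (∀ v, bB u v = 0) → u = 0 := fun u h =>
    Subtype.ext (nB1 u u.2 fun v hv => h ⟨v, hv⟩)
  have hbB2 : ∀ v, (∀ u, bB u v = 0) → v = 0 := fun v h =>
    Subtype.ext (nB2 v v.2 fun u hu => h ⟨u, hu⟩)
  have hbB'1 : ∀ u, (∀ v, bB' u v = 0) → u = 0 := fun u h =>
    Subtype.ext (nB'1 u u.2 fun v hv => h ⟨v, hv⟩)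
  have hbB'2 : ∀ v, (∀ u, bB' u v = 0) → v = 0 := fun v h =>
    Subtype.ext (nB'2 v v.2 fun u hu => h ⟨u, hu⟩)
  have : Nontrivial U := Submodule.nontrivial_iff_ne_bot.2 hU0
  -- the multiplier
  have hlam : ∀ g : D, ∃ c : K, ∀ u ∈ U, ∀ v ∈ U', β (R (g : Γ) u) (R (g : Γ) v) = c * β u v := by
    intro g
    set βg : X →ₗ[K] X →ₗ[K] K := β.compl₁₂ (R (g : Γ)) (R (g : Γ)) with hβg
    have hgN : ∀ a ∈ N, ∀ u v, βg (a u) v + βg u (a v) = 0 := by
      intro a ha u v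
      have h1 := hβN _ (hconj (g : Γ) a ha) (R (g : Γ) u) (R (g : Γ) v)
      have h2 : ∀ w, (R (g : Γ) * a * R (g : Γ)⁻¹) (R (g : Γ) w) = R (g : Γ) (a w) := by
        intro w
        show R (g : Γ) (a (R (g : Γ)⁻¹ (R (g : Γ) w))) = _
        rw [Rinv]
      rw [h2, h2] at h1
      exact h1
    obtain ⟨c, u0, hu0, hc⟩ := schur b (βg.domRestrict₁₂ U U') hb1 hb2
    refine ⟨c, ?_⟩
    have h3 := radL_irr hirr hNU hNU' (βg - c • β) (fun a ha u _ v _ => by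
      have e1 := hgN a ha u v
      have e2 := hβN a ha u v
      rw [LinearMap.sub_apply, LinearMap.sub_apply, LinearMap.sub_apply, LinearMap.sub_apply,
        LinearMap.smul_apply, LinearMap.smul_apply, LinearMap.smul_apply, LinearMap.smul_apply,
        smul_eq_mul, smul_eq_mul]
      linear_combination e1 - c * e2)
    have h4 : (u0 : X) ∈ radL (βg - c • β) U U' := by
      refine ⟨u0.2, fun v hv => ?_⟩
      have h5 := hc ⟨v, hv⟩
      have h6 : βg u0 v = c * β u0 v := h5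
      rw [LinearMap.sub_apply, LinearMap.sub_apply, LinearMap.smul_apply, LinearMap.smul_apply,
        smul_eq_mul, h6, sub_self]
    rcases h3 with h | h
    · rw [h] at h4
      exact absurd (Subtype.ext ((Submodule.mem_bot K).1 h4)) hu0
    · intro u hu v hv
      rw [← h] at hu
      have h5 := hu.2 v hv
      rw [LinearMap.sub_apply, LinearMap.sub_apply, LinearMap.smul_apply, LinearMap.smul_apply,
        smul_eq_mul, sub_eq_zero] at h5
      exact h5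
  choose lam hlam using hlam
  obtain ⟨u1, hu1, v1, hv1, hne⟩ := hβ0
  have hmul : ∀ g h : D, lam (g * h) = lam g * lam h := by
    intro g h
    have e1 := hlam (g * h) u1 hu1 v1 hv1
    have e2 := hlam h u1 hu1 v1 hv1
    have e3 := hlam g _ (hDU h h.2 u1 hu1) _ (hDU' h h.2 v1 hv1)
    have e4 : ∀ w, R ((g * h : D) : Γ) w = R (g : Γ) (R (h : Γ) w) := by
      intro w
      rw [Subgroup.coe_mul, map_mul]
      rfl
    rw [e4, e4, e3, e2, ← mul_assoc] at e1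
    exact (mul_right_cancel₀ hne e1).symm
  have hone : lam 1 = 1 := by
    have e1 := hlam 1 u1 hu1 v1 hv1
    have e4 : ∀ w, R ((1 : D) : Γ) w = w := by
      intro w
      rw [Subgroup.coe_one, map_one]
      rfl
    rw [e4, e4] at e1
    have e2 : (1 : K) * β u1 v1 = lam 1 * β u1 v1 := by rw [one_mul]; exact e1
    exact (mul_right_cancel₀ hne e2).symm
  -- determinants
  have hn : finrank K U = finrank K U' := fr_eq b hb1 hb2
  have hdet : ∀ g : D, lam g ^ (2 * finrank K U) = χ g ^ (2 * finrank K U) := by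
    intro g
    let f : End K U := (R (g : Γ)).restrict (hDU g g.2)
    let f' : End K U' := (R (g : Γ)).restrict (hDU' g g.2)
    have d1 := det_pair b hb1 hb2 f f' (lam g) fun u v => hlam g u u.2 v v.2
    have d2 := det_pair bB hbB1 hbB2 f f (χ g) fun u v => hB g g.2 u u.2 v v.2
    have d3 := det_pair bB' hbB'1 hbB'2 f' f' (χ g) fun u v => hB' g g.2 u u.2 v v.2
    rw [← hn] at d3
    rw [mul_comm 2, pow_mul, pow_mul, ← d1]
    calc (LinearMap.det f * LinearMap.det f') ^ 2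
        = (LinearMap.det f * LinearMap.det f) * (LinearMap.det f' * LinearMap.det f') := by ring
      _ = _ := by rw [d2, d3]; ring
  let F : D →* K :=
    { toFun := fun g => lam g * (χ g)⁻¹
      map_one' := by
        rw [hone, Subgroup.coe_one, map_one, inv_one, mul_one]
      map_mul' := fun g h => by
        rw [hmul, Subgroup.coe_mul, map_mul, mul_inv]
        ring }
  have hnpos : 0 < finrank K U := Module.finrank_pos
  obtain ⟨H, hH, hH1⟩ := fin_ker F (2 * finrank K U) (by omega) fun g => by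
    show (lam g * (χ g)⁻¹) ^ (2 * finrank K U) = 1
    rw [mul_pow, hdet, inv_pow, mul_inv_cancel₀ (pow_ne_zero _ (χne (χ := χ) (g : Γ)))]
  refine ⟨H, hH, fun g hg u hu v hv => ?_⟩
  rw [hlam g u hu v hv]
  have h1 : lam g * (χ g)⁻¹ = 1 := hH1 g hg
  have h2 : lam g = χ g := by
    have h3 := mul_inv_cancel₀ (χne (χ := χ) (g : Γ))
    calc lam g = lam g * (χ g * (χ g)⁻¹) := by rw [h3, mul_one]
      _ = (lam g * (χ g)⁻¹) * χ g := by ring
      _ = χ g := by rw [h1, one_mul]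
  rw [h2]

end main

/-- **invariant bilinear forms are Tate forms** -/
theorem t_two : Pool.Agent.Y224.AZ.S_TWO := by
  classical
  intro K X Γ _ _ _ _ _ _ _ R χ ω N hnd hω hss hNT hconj hirr hDu β hβ
  -- the subspaces
  have h1 : IsCompactElement (⊤ : Submodule K X) :=
    (Submodule.fg_iff_compact _).1 (Module.Finite.fg_top)
  rw [CompleteLattice.isCompactElement_iff_exists_le_sSup_of_le_sSup] at h1
  obtain ⟨t, ht, htop⟩ := h1 {U | SI R U} (by rw [sup_SI hss])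
  have htSI : ∀ U ∈ t, SI R U := fun U hU => ht hU
  -- the pairs
  have hpair : ∀ U U' : Submodule K X, SI R U → SI R U' → ∃ H : Subgroup Γ, H.FiniteIndex ∧
      ∀ g ∈ H, ∀ u ∈ U, ∀ v ∈ U', β (R g u) (R g v) = χ g * β u v := by
    intro U U' hU hU'
    obtain ⟨D1, hD1, hD1'⟩ := hU.2.1
    obtain ⟨D2, hD2, hD2'⟩ := hU'.2.1
    by_cases h0 : ∃ u ∈ U, ∃ v ∈ U', β u v ≠ 0
    · obtain ⟨D3, hD3, B, hB0, hB⟩ := hDu U hU
      obtain ⟨D4, hD4, B', hB'0, hB'⟩ := hDu U' hU'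
      set D : Subgroup Γ := (D1 ⊓ D2) ⊓ (D3 ⊓ D4) with hD
      have hDf : D.FiniteIndex := inferInstance
      have hNU : ∀ a ∈ N, ∀ u ∈ U, a u ∈ U := fun a ha =>
        Pool.Agent.TH118.CR.lieT_stable ω hnd hω hss hU.2.1 (hNT a ha)
      have hNU' : ∀ a ∈ N, ∀ u ∈ U', a u ∈ U' := fun a ha =>
        Pool.Agent.TH118.CR.lieT_stable ω hnd hω hss hU'.2.1 (hNT a ha)
      obtain ⟨H, hH, hH'⟩ := pair R χ N hconj D U U' hU.1
        (fun g hg => hD1' g hg.1.1) (fun g hg => hD2' g hg.1.2)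
        (hirr U hU) (hirr U' hU') hNU hNU' B B' β hB0 hB'0 h0
        (fun g hg => hB g hg.2.1) (fun g hg => hB' g hg.2.2)
        (fun a ha => Pool.Agent.TH118.CR.lieT_skew ω hnd hω hss hU.2.1 hD3 B hB (hNT a ha))
        (fun a ha => Pool.Agent.TH118.CR.lieT_skew ω hnd hω hss hU'.2.1 hD4 B' hB' (hNT a ha)) hβ
      refine ⟨H.map D.subtype, ⟨?_⟩, ?_⟩
      · rw [Subgroup.index_map_subtype]
        exact mul_ne_zero hH.index_ne_zero hDf.index_ne_zero
      · rintro _ ⟨g, hg, rfl⟩ u hu v hv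
        exact hH' g hg u hu v hv
    · push Not at h0
      refine ⟨D1 ⊓ D2, inferInstance, fun g hg u hu v hv => ?_⟩
      rw [h0 _ (hD1' g hg.1 u hu) _ (hD2' g hg.2 v hv), h0 u hu v hv, mul_zero]
  choose! H hH hH' using hpair
  have hfin : (⨅ a : t × t, H a.1.1 a.2.1).FiniteIndex :=
    Subgroup.finiteIndex_iInf fun a => hH _ _ (htSI _ a.1.2) (htSI _ a.2.2)
  refine ⟨_, hfin, fun g hg => ?_⟩
  have hg' : ∀ U ∈ t, ∀ U' ∈ t, g ∈ H U U' := fun U hU U' hU' =>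
    Subgroup.mem_iInf.1 hg (⟨U, hU⟩, ⟨U', hU'⟩)
  -- the difference
  set γ : X →ₗ[K] X →ₗ[K] K := β.compl₁₂ (R g) (R g) - χ g • β with hγ
  have hγ0 : ∀ U ∈ t, ∀ U' ∈ t, ∀ u ∈ U, ∀ v ∈ U', γ u v = 0 := by
    intro U hU U' hU' u hu v hv
    have h2 := hH' U U' (htSI U hU) (htSI U' hU') g (hg' U hU U' hU') u hu v hv
    show β (R g u) (R g v) - χ g * β u v = 0
    rw [h2, sub_self]
  have hstep1 : ∀ U ∈ t, ∀ u ∈ U, γ u = 0 := by
    intro U hU u hu
    have h2 : sSup (t : Set (Submodule K X)) ≤ LinearMap.ker (γ u) :=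
      sSup_le fun U' hU' v hv => hγ0 U hU U' hU' u hu v hv
    exact LinearMap.ker_eq_top.1 (top_le_iff.1 (htop.trans (by rw [Finset.sup_id_eq_sSup]; exact h2)))
  have hstep2 : γ = 0 := by
    have h2 : sSup (t : Set (Submodule K X)) ≤ LinearMap.ker γ :=
      sSup_le fun U hU u hu => hstep1 U hU u hu
    exact LinearMap.ker_eq_top.1 (top_le_iff.1 (htop.trans (by rw [Finset.sup_id_eq_sSup]; exact h2)))
  intro u v
  have h3 : γ u v = 0 := by rw [hstep2]; rfl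
  have h4 : β (R g u) (R g v) - χ g * β u v = 0 := h3
  exact sub_eq_zero.1 h4

end Pool.Agent.Y93.AZ
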